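import Mathlib
import Pool.Agent.Results.MP_d5c16a_gt.GrowthSqrt

set_option autoImplicit false

/-!
# Meyer's projection-to-section ratio: `1 ≤ M_n ≤ 12 √n`, and bodies all of whose ratios are large

For every `n ≥ 1` one has `1 ≤ M_n ≤ 12 √n`, every symmetric convex body in dimension `n` has, for
every `ε > 0`, directions `u, v` with ratio less than `12 √n + ε`, and there is a symmetric convex body
all of whose ratios (over all hyperplanes and all directions of projection) are at least `c √n`.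
-/

open scoped ENNReal

namespace Pool.Agent.Results.MP_d5c16a_gt.ExplicitUpper

open Pool.Agent.Helper392.Mey

/-- Bodies all of whose ratios are at least `c √n`. -/
theorem bodies : ∃ c : ℝ, 0 < c ∧ ∀ n : ℕ, 1 ≤ n →
    ∃ K : Set (EuclideanSpace ℝ (Fin n)), IsBody K ∧
      ∀ u v : EuclideanSpace ℝ (Fin n), ‖u‖ = 1 → ‖v‖ = 1 → inner ℝ u v ≠ 0 →
        ENNReal.ofReal (c * Real.sqrt n) ≤ ratio K u v := by
  obtain ⟨c, hc, h⟩ := kashin_lower kashin
  refine ⟨min c (1 / 4), by positivity, ?_⟩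
  intro n hn
  obtain ⟨k, rfl⟩ : ∃ k, n = k + 1 := ⟨n - 1, by omega⟩
  rcases le_or_gt 13 (k + 1) with h13 | h13
  · obtain ⟨K, L, η, hL, hη, hG, hle⟩ := h (k + 1) h13
    refine ⟨K, hG.body, fun u v hu hv huv => ?_⟩
    refine le_trans (ENNReal.ofReal_le_ofReal ?_) (hG.ratio_ge hL hη u v hu hv huv)
    refine le_trans ?_ hle
    have : min c (1 / 4) ≤ c := min_le_left _ _
    gcongr
  · refine ⟨Metric.closedBall 0 1, ball_body (k + 1), fun u v hu hv huv => ?_⟩
    have h1 : ENNReal.ofReal (min c (1 / 4) * Real.sqrt ((k + 1 : ℕ) : ℝ)) ≤ 1 := by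
      rw [← ENNReal.ofReal_one]
      apply ENNReal.ofReal_le_ofReal
      have h1 : min c (1 / 4) ≤ 1 / 4 := min_le_right _ _
      have h2 : Real.sqrt ((k + 1 : ℕ) : ℝ) ≤ 4 := by
        rw [show (4 : ℝ) = Real.sqrt 16 by
          rw [show (16 : ℝ) = 4 ^ 2 by norm_num]; exact (Real.sqrt_sq (by norm_num)).symm]
        apply Real.sqrt_le_sqrt
        have : k + 1 ≤ 16 := by omega
        exact_mod_cast this
      calc min c (1 / 4) * Real.sqrt ((k + 1 : ℕ) : ℝ) ≤ 1 / 4 * 4 := by gcongr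
        _ = 1 := by norm_num
    refine h1.trans ?_
    obtain ⟨T, hT⟩ := exists_par u hu
    have huv' : inner ℝ v u ≠ 0 := by rwa [real_inner_comm]
    unfold ratio
    rw [show k + 1 - 1 = k from rfl, hT.sec, hT.prj v huv']
    have hs : {y : E k | T y ∈ Metric.closedBall (0 : E (k + 1)) 1} =
        Metric.closedBall (0 : E k) 1 := by
      ext y
      simp
    have hsub : {y : E k | T y ∈ Metric.closedBall (0 : E (k + 1)) 1} ⊆
        {y : E k | ∃ t : ℝ, T y + t • v ∈ Metric.closedBall (0 : E (k + 1)) 1} := by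
      intro y hy
      exact ⟨0, by simpa using hy⟩
    have h0 : MeasureTheory.volume {y : E k | T y ∈ Metric.closedBall (0 : E (k + 1)) 1} ≠ 0 := by
      rw [hs]
      exact (Metric.measure_closedBall_pos MeasureTheory.volume 0 one_pos).ne'
    have h1 : MeasureTheory.volume {y : E k | T y ∈ Metric.closedBall (0 : E (k + 1)) 1} ≠ ⊤ := by
      rw [hs]
      exact (isCompact_closedBall (0 : E k) 1).measure_lt_top.ne
    rw [ENNReal.le_div_iff_mul_le (Or.inl h0) (Or.inl h1), one_mul]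
    exact MeasureTheory.measure_mono hsub

/-- Every body has directions with ratio less than `12 √n + ε`. -/
theorem directions {n : ℕ} (hn : 1 ≤ n) (K : Set (EuclideanSpace ℝ (Fin n))) (hK : IsBody K)
    (ε : ℝ) (hε : 0 < ε) : ∃ u v : EuclideanSpace ℝ (Fin n), ‖u‖ = 1 ∧ ‖v‖ = 1 ∧
      inner ℝ u v ≠ 0 ∧ ratio K u v < ENNReal.ofReal (12 * Real.sqrt n + ε) := by
  by_contra hcon
  push Not at hcon
  have h1 : ENNReal.ofReal (12 * Real.sqrt n + ε) ≤ M n := by
    unfold M
    refine le_iSup_of_le K (le_iSup_of_le hK ?_)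
    exact le_iInf fun u => le_iInf fun v => le_iInf fun hu => le_iInf fun hv =>
      le_iInf fun huv => hcon u v hu hv huv
  have h2 := h1.trans (M_le n hn)
  rw [ENNReal.ofReal_le_ofReal_iff (by positivity)] at h2
  linarith

/-- (1) `1 ≤ M_n ≤ 12 √n` for every `n ≥ 1`. (2) For every symmetric convex body `K` and every
`ε > 0` there are unit vectors `u, v`, not orthogonal, with `ratio K u v < 12 √n + ε`. (3) There is an
absolute constant `c > 0` such that for every `n ≥ 1` some symmetric convex body has all its ratios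
at least `c √n`; in particular `M_n ≥ c √n`. -/
theorem result :
    (∀ n : ℕ, 1 ≤ n → 1 ≤ M n ∧ M n ≤ ENNReal.ofReal (12 * Real.sqrt n)) ∧
    (∀ n : ℕ, 1 ≤ n → ∀ K : Set (EuclideanSpace ℝ (Fin n)), IsBody K → ∀ ε : ℝ, 0 < ε →
      ∃ u v : EuclideanSpace ℝ (Fin n), ‖u‖ = 1 ∧ ‖v‖ = 1 ∧ inner ℝ u v ≠ 0 ∧
        ratio K u v < ENNReal.ofReal (12 * Real.sqrt n + ε)) ∧
    ∃ c : ℝ, 0 < c ∧ ∀ n : ℕ, 1 ≤ n →
      ENNReal.ofReal (c * Real.sqrt n) ≤ M n ∧
      ∃ K : Set (EuclideanSpace ℝ (Fin n)), IsBody K ∧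
        ∀ u v : EuclideanSpace ℝ (Fin n), ‖u‖ = 1 → ‖v‖ = 1 → inner ℝ u v ≠ 0 →
          ENNReal.ofReal (c * Real.sqrt n) ≤ ratio K u v := by
  refine ⟨fun n hn => ⟨one_le_M n hn, M_le n hn⟩, fun n hn K hK ε hε => directions hn K hK ε hε, ?_⟩
  obtain ⟨c, hc, h⟩ := bodies
  refine ⟨c, hc, fun n hn => ⟨?_, h n hn⟩⟩
  obtain ⟨K, hK, hr⟩ := h n hn
  unfold M
  refine le_iSup_of_le K (le_iSup_of_le hK ?_)
  exact le_iInf fun u => le_iInf fun v => le_iInf fun hu => le_iInf fun hv =>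
    le_iInf fun huv => hr u v hu hv huv

end Pool.Agent.Results.MP_d5c16a_gt.ExplicitUpper
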